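import Mathlib
import Pool.Agent.V5helper5.AB.Chain4

/-!
# Divisibility chains in the cycles of the maps `x / 2`, `(a x + b) / 2`

A divisibility chain is a set of positive integers any two of which are comparable under divisibility, for
example the powers of an integer, or the factorials. Let `a`, `b` be odd, `|a| ≥ 3`. The elements of a cycle of
`T a b` (and the terms of a trajectory) are far from being multiples of the members of a chain by few numbers:
for every chain `D` and every set of `N` pairs `(k, s)`, `|k| ≤ B`, at most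
`(1 + log₂ |a|) √(p N) + N (2 + log₂ |a| + log₂ (|b| + 2 B))` elements of a cycle of length `p` are of the form
`k + s d`, `d ∈ D` (with a parity condition). So a positive proportion of `p` multipliers `s` is needed
to represent all odd elements of a cycle as `s d`; for example, for every `e ≥ 2` the numbers `x / e ^ v`, `e ^ v`
the largest power of `e` which divides `x`, take a positive proportion of `p` values at the odd elements `x`
of the cycle. Odd elements of the cycle any two of which are comparable under divisibility are at most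
`C √p` in number, and there are `c √p` odd elements none of which divides another one.

Method: if `x` and `T^i x` are of this form, with `d` and `d'`, and `i ≤ w`, then the smaller one of `d` and `d'`
divides the nonzero constant `2^i (T^i x - k') - a^o (x - k)`, which is at most `|a|^w (|b| + 2 B)`. So the
large ones are at least `w` steps apart, and there are at most `w + log (|b| + 2 B)` small ones for each
pair; the optimal `w` is `√(p / N)`.
-/

set_option autoImplicit false

namespace Pool.Agent.Results.MP_dee342_nt.DivisibilityChains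

open Finset

/-- The map `x ↦ x / 2` (`x` even), `x ↦ (a x + b) / 2` (`x` odd). -/
def T (a b x : ℤ) : ℤ := if x % 2 = 0 then x / 2 else (a * x + b) / 2

/-- `Z` is a cycle (periodic orbit) of `T a b`. -/
def IsCycle (a b : ℤ) (Z : Finset ℤ) : Prop :=
  ∃ (x : ℤ) (p : ℕ), 1 ≤ p ∧ (T a b)^[p] x = x ∧ Z = (Finset.range p).image fun i => (T a b)^[i] x

/-- `D` consists of positive integers, any two of which are comparable under divisibility. -/
def DivChain (D : Set ℤ) : Prop :=
  (∀ d ∈ D, 0 < d) ∧ ∀ d ∈ D, ∀ d' ∈ D, d ∣ d' ∨ d' ∣ d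

/-- `y = k + s d` for a member `d` of `D` and a pair `(k, s)` in `P` with `s ≠ 0`, and `2 ^ i` does not divide
`y - k` when `i ≥ 1` and `T^i k` is also the first coordinate of a pair in `P`. (The last condition holds if
`y - k` is odd, and if no forward iterate `T^i k`, `i ≥ 1`, is a first coordinate.) -/
def Special (a b : ℤ) (P : Finset (ℤ × ℤ)) (D : Set ℤ) (y : ℤ) : Prop :=
  ∃ k s d : ℤ, (k, s) ∈ P ∧ s ≠ 0 ∧ d ∈ D ∧ y = k + s * d ∧
    ∀ i : ℕ, 1 ≤ i → (∃ s' : ℤ, ((T a b)^[i] k, s') ∈ P) → ¬ (2 : ℤ) ^ i ∣ y - k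

/-- `κ = 2 + log₂ |a| + log₂ |b|`. -/
noncomputable def kap (a b : ℤ) : ℝ := 2 + Real.logb 2 |(a : ℝ)| + Real.logb 2 |(b : ℝ)|

/-- `δ = log 2 / log (|a| + |b|)`. -/
noncomputable def del (a b : ℤ) : ℝ := Real.log 2 / Real.log (|(a : ℝ)| + |(b : ℝ)|)

/-- **Main theorem.** Let `a`, `b` be odd, `|a| ≥ 3` (for example `a = 3` or `a = 5`, and `b = 1`). Put
`κ = 2 + log₂ |a| + log₂ |b|`, `δ = log 2 / log (|a| + |b|)`. Let `D` be a divisibility chain, and let `P`
be a set of `N` pairs of integers with first coordinates of size at most `B`.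

(1) If the first `n` terms of a trajectory of `T a b` are different from each other, at most
`(1 + log₂ |a|) √(n N) + N (2 + log₂ |a| + log₂ (|b| + 2 B))` of these terms are special for `P` and `D`.

(2) At most `(1 + log₂ |a|) √(p N) + N (2 + log₂ |a| + log₂ (|b| + 2 B))` elements of a cycle of length `p`
are special.

(3) Every cycle of length `p` has the following properties. A set of odd elements any two of which are
comparable under divisibility has at most `4 κ √p` elements. If `0` is not in the cycle there are at least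
`(δ / (8 κ)) √p` odd elements none of which divides another one.

(4) If all the odd elements of a cycle of length `p` not containing `0` are of the form `s d` with `s ∈ Q` and
`d` in the divisibility chain `D`, then `Q` has at least `(δ / (2 κ)) ^ 2 p` elements. -/
theorem result (a b : ℤ) (ha : a % 2 = 1) (ha3 : 3 ≤ |a|) (hb : b % 2 = 1) :
    (∀ (D : Set ℤ), DivChain D → ∀ (P : Finset (ℤ × ℤ)) (B : ℕ), (∀ q ∈ P, |q.1| ≤ B) →
      (∀ (x : ℤ) (n : ℕ), Set.InjOn (fun i => (T a b)^[i] x) (range n : Finset ℕ) →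
        ∀ F : Finset ℕ, F ⊆ range n → (∀ t ∈ F, Special a b P D ((T a b)^[t] x)) →
          (F.card : ℝ) ≤ (1 + Real.logb 2 |(a : ℝ)|) * √((n : ℝ) * P.card) +
            P.card * (2 + Real.logb 2 |(a : ℝ)| + Real.logb 2 (|(b : ℝ)| + 2 * B))) ∧
      (∀ Z : Finset ℤ, IsCycle a b Z → ∀ F : Finset ℤ, F ⊆ Z → (∀ y ∈ F, Special a b P D y) →
          (F.card : ℝ) ≤ (1 + Real.logb 2 |(a : ℝ)|) * √((Z.card : ℝ) * P.card) +
            P.card * (2 + Real.logb 2 |(a : ℝ)| + Real.logb 2 (|(b : ℝ)| + 2 * B)))) ∧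
    (∀ Z : Finset ℤ, IsCycle a b Z →
      (∀ C : Finset ℤ, C ⊆ Z → (∀ y ∈ C, y % 2 = 1) → (∀ u ∈ C, ∀ v ∈ C, u ∣ v ∨ v ∣ u) →
        (C.card : ℝ) ≤ 4 * kap a b * √(Z.card : ℝ)) ∧
      ((0 : ℤ) ∉ Z →
        (∃ A : Finset ℤ, A ⊆ Z ∧ (∀ y ∈ A, y % 2 = 1) ∧ (∀ y ∈ A, ∀ z ∈ A, y ∣ z → y = z) ∧
          del a b * √(Z.card : ℝ) ≤ 8 * kap a b * A.card) ∧
        ∀ (D : Set ℤ), DivChain D → ∀ Q : Finset ℤ,
          (∀ y ∈ Z, y % 2 = 1 → ∃ s ∈ Q, ∃ d ∈ D, y = s * d) →
            (del a b / (2 * kap a b)) ^ 2 * Z.card ≤ Q.card)) := by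
  have hg : |a| = ((a.natAbs : ℕ) : ℤ) := by rw [Int.natCast_natAbs]
  have hg3 : 3 ≤ a.natAbs := by omega
  have hgR : |(a : ℝ)| = ((a.natAbs : ℕ) : ℝ) := by rw [Nat.cast_natAbs, Int.cast_abs]
  unfold kap del
  rw [hgR]
  refine ⟨fun D hD P B hB => ⟨?_, ?_⟩, fun Z hZ => ⟨?_, fun h0 => ⟨?_, ?_⟩⟩⟩
  · intro x n hinj F hF hsp
    exact Pool.Agent.V5helper5.AB.chain_opt ha hb hg hg3 P hD hB hinj F hF hsp
  · intro Z hZ F hF hsp
    exact Pool.Agent.V5helper5.AB.chain_cyc ha hb hg hg3 P hD hB hZ F hF hsp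
  · intro C hC hodd hch
    exact Pool.Agent.V5helper5.AB.chain_odd_ab ha hb hg hg3 hZ C hC hodd hch
  · exact Pool.Agent.V5helper5.AB.antichain_ab ha hb hg hg3 hZ h0
  · intro D hD Q h
    exact Pool.Agent.V5helper5.AB.multipliers_ab ha hb hg hg3 hZ h0 hD Q h

end Pool.Agent.Results.MP_dee342_nt.DivisibilityChains
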