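import Mathlib
import Pool.Agent.V5helper2.PC.Gen2

set_option autoImplicit false

/-!
# The parity changes in the sorted list of a cycle of the 3x+1, 5x+1 and `a x + b` maps

Write the elements of a cycle `Z` of `T_{a,b}` in increasing order and let `A` be the number of the places where
two neighbours have different parity. Let `x < x'` be neighbours of `Z` in an interval `[u, u + 2 ^ r)`, and let
all differences of elements of `Z` be less than `2 ^ n`. As `2 ^ n` does not divide `x' - x`, there is a first
`i < n` such that the iterates number `i` of `x` and `x'` have different parity, and then a parity change of the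
sorted list lies between them. Given `i`, the number of the odd steps and the place of the change, `x` is
determined up to an interval which is much shorter than the given one, unless an earlier iterate is small, and
then again this iterate lies in a shorter interval. So an interval of length `2 ^ r` contains at most
`9 m ^ 2 (A + 1)` times as many elements as the best interval of length about `2 ^ (r / 2)`, with `m` of the
order of `A + log |b| + log (min |x|)`, and after `log_2 m` steps the length of a cycle is seen to be at most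
quasi-polynomial in `m`. For prime `a` a lower bound for linear forms in `log 2`, `log a` bounds the least
element.
-/

namespace Pool.Agent.Results.MP_dee342_nt.ParityChangesOfCycles

open Finset

/-- The map `T_{a,b}` on the integers. -/
def T (a b x : ℤ) : ℤ := if x % 2 = 0 then x / 2 else (a * x + b) / 2

/-- `Z` is a cycle of `T_{a,b}`. -/
def IsCycle (a b : ℤ) (Z : Finset ℤ) : Prop :=
  ∃ (x : ℤ) (p : ℕ), 1 ≤ p ∧ (T a b)^[p] x = x ∧ Z = (Finset.range p).image fun i => (T a b)^[i] x

/-- The number of the parity changes: the number of the pairs of elements of `Z` which are neighbours in the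
increasing order of `Z` and have different parity. -/
def changes (Z : Finset ℤ) : ℕ :=
  ((Z ×ˢ Z).filter fun p =>
    p.1 < p.2 ∧ (∀ z ∈ Z, ¬ (p.1 < z ∧ z < p.2)) ∧ p.1 % 2 ≠ p.2 % 2).card

theorem changes_eq (Z : Finset ℤ) : changes Z = (Pool.Agent.V5helper2.PC.chg Z).card := by
  unfold changes Pool.Agent.V5helper2.PC.chg
  congr 1

/-- (1) For every odd prime `a` there is `K` such that for every odd `b` and every cycle `Z` of `T_{a,b}`, with
`A` parity changes, `Z` has at most `|b| exp (5 (log (K (A + 1 + log ^ 2 |b|))) ^ 2)` elements, and all of them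
have absolute value at most `exp (K (A + 1 + log ^ 2 |b|))`. (2) For every odd prime `a`, odd `b` and `A` there
are only finitely many cycles of `T_{a,b}` with at most `A` parity changes. (3) For all odd `a ≥ 3`, odd `b` and all
`x, z` in a cycle of `T_{a,b}` with `A` parity changes, `|z| ≤ ((a + 1) / 2) ^ (A + 1) max (|x|, |b|)`. -/
theorem result :
    (∀ a : ℕ, a.Prime → a ≠ 2 → ∃ K : ℝ, ∀ b : ℤ, b % 2 = 1 → ∀ Z : Finset ℤ, IsCycle a b Z →
      (Z.card : ℝ) ≤ |(b : ℝ)| *
        Real.exp (5 * (Real.log (K * (changes Z + 1 + (Real.log |(b : ℝ)|) ^ 2))) ^ 2) ∧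
      ∀ z ∈ Z, |(z : ℝ)| ≤ Real.exp (K * (changes Z + 1 + (Real.log |(b : ℝ)|) ^ 2))) ∧
    (∀ a : ℕ, a.Prime → a ≠ 2 → ∀ b : ℤ, b % 2 = 1 → ∀ A : ℕ,
      {Z : Finset ℤ | IsCycle a b Z ∧ changes Z ≤ A}.Finite) ∧
    (∀ a b : ℤ, 3 ≤ a → a % 2 = 1 → b % 2 = 1 → ∀ Z : Finset ℤ, IsCycle a b Z → ∀ x ∈ Z, ∀ z ∈ Z,
      |z| ≤ ((a + 1) / 2) ^ (changes Z + 1) * max |x| |b|) := by
  refine ⟨?_, ?_, ?_⟩
  · intro a ha ha2
    obtain ⟨K, -, hK⟩ := Pool.Agent.V5helper2.PC.prime_main ha ha2
    refine ⟨K, fun b hb Z hZ => ?_⟩
    rw [changes_eq]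
    exact hK b hb Z hZ
  · intro a ha ha2 b hb A
    obtain ⟨K, hK1, hK⟩ := Pool.Agent.V5helper2.PC.prime_main ha ha2
    have hao : (a : ℤ) % 2 = 1 := by
      rcases ha.eq_two_or_odd with h | h
      · exact absurd h ha2
      · omega
    have ha3 : (3 : ℤ) ≤ a := by
      have := ha.two_le
      omega
    refine Set.Finite.subset (Pool.Agent.V5helper2.PC.finite_of_bound ha3 hao hb A hK1
      (sq_nonneg (Real.log |(b : ℝ)|)) (fun Z hZ => (hK b hb Z hZ).1)) ?_
    rintro Z ⟨hZ, hA⟩
    rw [changes_eq] at hA
    exact ⟨hZ, hA⟩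
  · intro a b ha hao hb Z hZ x hx z hz
    rw [changes_eq, mul_comm]
    exact Pool.Agent.V5helper2.PC.abs_le_of ha hao hb (Pool.Agent.V5helper2.PC.isCyc_cyc hZ) hx
      (le_max_right _ _) (le_max_left _ _) hz

end Pool.Agent.Results.MP_dee342_nt.ParityChangesOfCycles
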