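import Mathlib
import Pool.Agent.V5helper76.SPG.Cyc

/-!
# The parts of the elements of cycles of `T_{a,b}` which are composed of given primes

Let `a`, `b` be odd, `|a| ≥ 3` (for example the 3x+1 map and the 5x+1 map), let `S` be a finite set of primes and
`f` a nonzero polynomial with integer coefficients. In all but finitely many cycles the values of
`f` have negligible `S`-parts, both on logarithmic average and for almost all elements.

Method: for the elements `x` of a residue class modulo `2 ^ m` the numbers `2 ^ j T^j x`, `j < m`, are linear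
polynomials in `x`. The product of the corresponding transforms of an irreducible polynomial `g` is
squarefree, because an affine map `x ↦ (a ^ o x + c) / 2 ^ j` maps no finite set to itself except its fixed point.
So Ridout's theorem bounds the `S`-part of the product of `m` successive values by `C |x| ^ 3`, whatever
`m` is.
-/

set_option autoImplicit false

namespace Pool.Agent.Results.MP_dee342_nt.SParts

open Polynomial Finset

/-- The map `T_{a,b}` on the integers. -/
def T (a b x : ℤ) : ℤ := if x % 2 = 0 then x / 2 else (a * x + b) / 2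

/-- `Z` is a cycle (periodic orbit) of `T_{a,b}`. -/
def IsCycle (a b : ℤ) (Z : Finset ℤ) : Prop :=
  ∃ (x : ℤ) (p : ℕ), 1 ≤ p ∧ (T a b)^[p] x = x ∧ Z = (Finset.range p).image fun i => (T a b)^[i] x

/-- The `S`-part of the integer `y`: the largest divisor of `y` composed of primes in `S` (and `1` for
`y = 0`). -/
def sPart (S : Finset ℕ) (y : ℤ) : ℕ := ∏ p ∈ S, p ^ y.natAbs.factorization p

/-- The number of odd terms among `x, T x, …, T^(j-1) x`. -/
def odds (a b x : ℤ) (j : ℕ) : ℕ := ((Finset.range j).filter fun i => (T a b)^[i] x % 2 ≠ 0).card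

/-- `x` is fresh for `f`: no rational root `r` of `f` is the fixed point of the affine map
`y ↦ (a ^ o y + c) / 2 ^ j` which maps `x` to `T^j x`, for any `j ≥ 1` (`o` is the number of odd terms among
`x, …, T^(j-1) x`). -/
def Fresh (a b : ℤ) (f : ℤ[X]) (x : ℤ) : Prop :=
  ∀ j : ℕ, 1 ≤ j → ∀ r : ℚ, aeval r f = 0 →
    (2 : ℚ) ^ j * ((T a b)^[j] x - r) ≠ a ^ odds a b x j * (x - r)

lemma T_eq : T = Pool.Agent.V5helper5.AB.T := rfl

lemma odds_eq (a b x : ℤ) (j : ℕ) : odds a b x j = Pool.Agent.V5helper5.AB.od a b j x := by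
  rw [Pool.Agent.V5helper5.AB.od_filter]
  rfl

lemma fresh_iff (a b : ℤ) (f : ℤ[X]) (x : ℤ) :
    Fresh a b f x ↔ Pool.Agent.V5helper76.SPG.Fre a b 1 f x := by
  unfold Fresh Pool.Agent.V5helper76.SPG.Fre
  rw [T_eq]
  simp only [odds_eq, mul_one, Int.cast_one]

lemma fm_eq (f : ℤ[X]) (y : ℤ) : Pool.Agent.V5helper76.SPG.fm f y 1 = f.eval y :=
  Pool.Agent.V5helper76.SP.fv_one f y

lemma sPart_eq (S : Finset ℕ) (y : ℤ) :
    Real.log (sPart S y) = Pool.Agent.V5helper76.SP.Lam S y := rfl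

lemma sPart_pos {S : Finset ℕ} (hS : ∀ p ∈ S, p.Prime) (y : ℤ) : 0 < sPart S y :=
  Finset.prod_pos fun p hp => pow_pos (hS p hp).pos _

lemma ht_eq (y : ℤ) : Pool.Agent.V5helper76.SPG.ht y 1 = Real.log (max |(y : ℝ)| 1) := by
  unfold Pool.Agent.V5helper76.SPG.ht
  rw [Int.cast_one, abs_one]

lemma ht_ne {y : ℤ} (hy : y ≠ 0) : Pool.Agent.V5helper76.SPG.ht y 1 = Real.log |(y : ℝ)| := by
  rw [ht_eq, max_eq_left]
  exact_mod_cast Int.one_le_abs hy

open Classical in
lemma phi_sum (a b : ℤ) (S : Finset ℕ) (f : ℤ[X]) {ι : Type*} (A : Finset ι) (F : ι → ℤ) :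
    ∑ i ∈ A, Pool.Agent.V5helper76.SPG.phi S a b 1 f (F i) =
      ∑ i ∈ A with Fresh a b f (F i), Real.log (sPart S (f.eval (F i))) := by
  rw [Finset.sum_filter]
  refine Finset.sum_congr rfl fun i _ => ?_
  unfold Pool.Agent.V5helper76.SPG.phi
  rw [fm_eq]
  by_cases h : Fresh a b f (F i)
  · rw [if_pos h, if_pos ((fresh_iff _ _ _ _).1 h), sPart_eq]
  · rw [if_neg h, if_neg (fun h' => h ((fresh_iff _ _ _ _).2 h'))]

open Classical in
lemma ind_sum (a b : ℤ) {S : Finset ℕ} (hS : ∀ p ∈ S, p.Prime) (f : ℤ[X]) {ε : ℝ} (hε : 0 < ε)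
    {ι : Type*} (A : Finset ι) (F : ι → ℤ) :
    ∑ i ∈ A, Pool.Agent.V5helper76.SPG.ind S a b 1 f ε (F i) =
      ((A.filter fun i => Fresh a b f (F i) ∧ |(F i : ℝ)| ^ ε ≤ sPart S (f.eval (F i))).card : ℝ) := by
  rw [Finset.card_filter]
  push_cast
  refine Finset.sum_congr rfl fun i hi => ?_
  unfold Pool.Agent.V5helper76.SPG.ind
  have hs : (0 : ℝ) < sPart S (f.eval (F i)) := by exact_mod_cast sPart_pos hS _
  have h1 : Pool.Agent.V5helper76.SPG.Bad S a b 1 f ε (F i) ↔
      (Fresh a b f (F i) ∧ |(F i : ℝ)| ^ ε ≤ sPart S (f.eval (F i))) := by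
    unfold Pool.Agent.V5helper76.SPG.Bad
    rw [fresh_iff, fm_eq, ← sPart_eq]
    rcases eq_or_ne (F i) 0 with h0 | h0
    · rw [ht_eq, h0]
      have e1 : |((0 : ℤ) : ℝ)| ^ ε = 0 := by
        rw [Int.cast_zero, abs_zero, Real.zero_rpow hε.ne']
      have e2 : Real.log (max |((0 : ℤ) : ℝ)| 1) = 0 := by
        rw [Int.cast_zero, abs_zero, max_eq_right zero_le_one, Real.log_one]
      rw [e1, e2, mul_zero, ← h0]
      constructor
      · exact fun h => ⟨h.1, hs.le⟩
      · intro h
        refine ⟨h.1, Real.log_nonneg ?_⟩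
        exact_mod_cast sPart_pos hS (f.eval (F i))
    · have h00 : 0 < |(F i : ℝ)| := abs_pos.2 (by exact_mod_cast h0)
      rw [ht_ne h0, ← Real.log_rpow h00, Real.log_le_log_iff (Real.rpow_pos_of_pos h00 _) hs]
  by_cases h : (Fresh a b f (F i) ∧ |(F i : ℝ)| ^ ε ≤ sPart S (f.eval (F i)))
  · rw [if_pos h, if_pos (h1.2 h)]
  · rw [if_neg h, if_neg (fun h' => h (h1.1 h'))]

open Classical in
/-- **Main theorem.** Let `a`, `b` be odd integers, `|a| ≥ 3`, `T = T_{a,b}`. Let `S` be a finite set of primes, `f` a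
nonzero polynomial with integer coefficients and `ε > 0`.

(1) For all but finitely many cycles, the product of the `S`-parts of the numbers `f y`, `y` a fresh element of
the cycle, is at most `P ^ ε`, where `P` is the product of the absolute values of the odd elements.

(2) For all but finitely many cycles, the `S`-part of `f y` is at least `|y| ^ ε` for at most `ε p` fresh
elements `y`, where `p` is the length of the cycle.

(3), (4) The same for pieces of trajectories.

(5) The freshness for a linear polynomial `X - k`: `y` is fresh if and only if there is no `j ≥ 1` with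
`T^j k = k` and `y ≡ k` modulo `2 ^ j`. So all integers are fresh if `k` is not periodic, and the fresh integers
are the odd ones for `k = 0`. If `f` has no rational root then all integers are fresh. -/
theorem result (a b : ℤ) (ha : a % 2 = 1) (hb : b % 2 = 1) (ha3 : 3 ≤ |a|)
    (S : Finset ℕ) (hS : ∀ p ∈ S, p.Prime) (f : ℤ[X]) (hf : f ≠ 0) (ε : ℝ) (hε : 0 < ε) :
    {Z : Finset ℤ | IsCycle a b Z ∧ (∏ y ∈ Z with y % 2 = 1, |(y : ℝ)|) ^ ε <
      ∏ y ∈ Z with Fresh a b f y, (sPart S (f.eval y) : ℝ)}.Finite ∧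
    {Z : Finset ℤ | IsCycle a b Z ∧ ε * Z.card <
      ((Z.filter fun y => Fresh a b f y ∧ |(y : ℝ)| ^ ε ≤ sPart S (f.eval y)).card : ℝ)}.Finite ∧
    (∃ K : ℝ, ∀ (x : ℤ) (n : ℕ),
      ∑ t ∈ range n with Fresh a b f ((T a b)^[t] x), Real.log (sPart S (f.eval ((T a b)^[t] x))) ≤
        ε * ∑ t ∈ range n, Real.log (max |((T a b)^[t] x : ℝ)| 1) +
          K * (Real.log (max |(x : ℝ)| 1) + n)) ∧
    (∃ K : ℝ, ∀ (x : ℤ) (n : ℕ), Set.InjOn (fun i => (T a b)^[i] x) (range n : Finset ℕ) →
      (((range n).filter fun t => Fresh a b f ((T a b)^[t] x) ∧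
        |((T a b)^[t] x : ℝ)| ^ ε ≤ sPart S (f.eval ((T a b)^[t] x))).card : ℝ) ≤ ε * n + K) ∧
    (∀ k y : ℤ, Fresh a b (X - C k) y ↔
      ∀ j : ℕ, 1 ≤ j → (T a b)^[j] k = k → ¬ (2 : ℤ) ^ j ∣ y - k) := by
  refine ⟨?_, ?_, ?_, ?_, ?_⟩
  · apply (Pool.Agent.V5helper76.SPG.cyc_sum hS ha ha3 hb hf hε).subset
    rintro Z ⟨hZ, hlt⟩
    refine ⟨hZ, ?_⟩
    have h1 : ∑ y ∈ Z, Pool.Agent.V5helper76.SPG.phi S a b 1 f y =
        Real.log (∏ y ∈ Z with Fresh a b f y, (sPart S (f.eval y) : ℝ)) := by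
      rw [phi_sum a b S f Z (fun y => y), Real.log_prod]
      intro y _
      exact_mod_cast (sPart_pos hS _).ne'
    have hodd : ∀ y ∈ Z.filter (fun y => y % 2 = 1), (0 : ℝ) < |(y : ℝ)| := by
      intro y hy
      have h2 := (Finset.mem_filter.1 hy).2
      have h3 : y ≠ 0 := by rintro rfl; simp at h2
      exact abs_pos.2 (by exact_mod_cast h3)
    have h2 : ε * ∑ y ∈ Z, (if y % 2 = 0 then 0 else Pool.Agent.V5helper76.SPG.ht y 1) =
        Real.log ((∏ y ∈ Z with y % 2 = 1, |(y : ℝ)|) ^ ε) := by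
      rw [Real.log_rpow (Finset.prod_pos hodd), Real.log_prod (fun y hy => (hodd y hy).ne')]
      congr 1
      rw [Finset.sum_filter]
      refine Finset.sum_congr rfl fun y _ => ?_
      by_cases h : y % 2 = 0
      · rw [if_pos h, if_neg (by omega)]
      · rw [if_neg h, if_pos (by omega), ht_ne]
        rintro rfl
        simp at h
    rw [h1, h2]
    exact Real.log_lt_log (Real.rpow_pos_of_pos (Finset.prod_pos hodd) _) hlt
  · apply (Pool.Agent.V5helper76.SPG.cyc_count hS ha ha3 hb hf hε).subset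
    rintro Z ⟨hZ, hlt⟩
    refine ⟨hZ, ?_⟩
    rw [ind_sum a b hS f hε Z (fun y => y)]
    exact hlt
  · obtain ⟨K, _, h⟩ := Pool.Agent.V5helper76.SPG.traj_sum hS ha b hf hε
    refine ⟨K, fun x n => ?_⟩
    have h1 := h 1 x n (Pool.Agent.V5helper76.SPG.adm_one hb x)
    rw [mul_one] at h1
    rw [phi_sum a b S f (range n) (fun t => (Pool.Agent.V5helper5.AB.T a b)^[t] x)] at h1
    simp only [ht_eq] at h1
    exact h1
  · obtain ⟨K, _, h⟩ := Pool.Agent.V5helper76.SPG.traj_count hS ha b hf hε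
    refine ⟨K, fun x n hinj => ?_⟩
    have h1 := h 1 x n (Pool.Agent.V5helper76.SPG.adm_one hb x)
    rw [mul_one] at h1
    have h2 := h1 hinj
    rw [ind_sum a b hS f hε (range n) (fun t => (Pool.Agent.V5helper5.AB.T a b)^[t] x)] at h2
    exact h2
  · intro k y
    have hroot : ∀ r : ℚ, aeval r (X - C k : ℤ[X]) = 0 ↔ r = k := by
      intro r
      rw [map_sub, aeval_X, aeval_C, sub_eq_zero]
      simp
    constructor
    · intro h j hj hk hdvd
      refine h j hj k ((hroot k).2 rfl) ?_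
      obtain ⟨h1, h2⟩ := Pool.Agent.V5helper5.AB.congr_branch ha hb hdvd j le_rfl
      have e1 := Pool.Agent.V5helper5.AB.branch ha hb y j
      have e2 := Pool.Agent.V5helper5.AB.branch ha hb k j
      rw [← h1, ← h2] at e2
      rw [odds_eq]
      rw [T_eq] at hk ⊢
      rw [hk] at e2
      have e3 : (2 : ℤ) ^ j * ((Pool.Agent.V5helper5.AB.T a b)^[j] y - k) =
          a ^ Pool.Agent.V5helper5.AB.od a b j y * (y - k) := by linarith
      exact_mod_cast e3
    · intro h j hj r hr heq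
      rw [hroot] at hr
      subst hr
      have e1 : Pool.Agent.V5helper5.AB.ec a b j y k k = 0 := by
        rw [← Pool.Agent.V5helper5.AB.branch_kk ha hb]
        rw [odds_eq] at heq
        rw [T_eq] at heq
        have : (2 : ℤ) ^ j * ((Pool.Agent.V5helper5.AB.T a b)^[j] y - k) =
          a ^ Pool.Agent.V5helper5.AB.od a b j y * (y - k) := by exact_mod_cast heq
        linarith
      obtain ⟨e2, e3⟩ := Pool.Agent.V5helper5.AB.ec_zero ha hb e1
      exact h j hj e2 e3

end Pool.Agent.Results.MP_dee342_nt.SParts
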