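import Mathlib
import Pool.Agent.V5helper5.AB.Cyc

/-!
# Squarefree parts of the elements of cycles of the maps `x / 2`, `(a x + b) / 2`

For all odd integers `a`, `b` with `|a| ≥ 3` (so for the 3x+1 and for the 5x+1 map) only finitely many cycles
have odd elements with at most `p ^ c` different squarefree parts, `c < 1 / 3` (cubefree parts: `c < 1 / 2`);
here `p` is the length of the cycle. All this is a special case of a theorem on the elements
`y = k + s q ^ m` of cycles, where `(k, s)` is in a given set `P` of pairs.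

Method: a window of `w = δ log p` steps. If three terms `x, T^i x, T^j x` (`0 < i < j ≤ w`) are of this form
then `q` solves simultaneously two equations `A y ^ m - B q ^ m = e`, `A' z ^ m - B' q ^ m = e'` whose
coefficients are determined by `x` modulo `2 ^ w` and by the three pairs; `e` and `e'` are small and
independent of the size of the multipliers. For `m ≥ 3` one such equation, for `m = 2` the pair
of equations has the gap principle `q₁ q₂ ≤ E q₃` for any three solutions `q₁ < q₂ < q₃`, hence only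
`O(log log q)` solutions up to `q`. The number of the classes is a power of `p` less than one.
-/

set_option autoImplicit false

namespace Pool.Agent.Results.MP_dee342_nt.SquarefreeParts

open Finset

/-- The map `x ↦ x / 2` (`x` even), `x ↦ (a x + b) / 2` (`x` odd). -/
def T (a b x : ℤ) : ℤ := if x % 2 = 0 then x / 2 else (a * x + b) / 2

/-- `Z` is a cycle (periodic orbit) of `T a b`. -/
def IsCycle (a b : ℤ) (Z : Finset ℤ) : Prop :=
  ∃ (x : ℤ) (p : ℕ), 1 ≤ p ∧ (T a b)^[p] x = x ∧ Z = (Finset.range p).image fun i => (T a b)^[i] x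

/-- `y = k + s q ^ m` for an integer `q` and a pair `(k, s)` in `P` with `s ≠ 0`, and `2 ^ i` does not divide
`y - k` when `i ≥ 1` and `T^i k` is also the first coordinate of a pair in `P`. (The last condition holds if
`y - k` is odd, and if no forward iterate `T^i k`, `i ≥ 1`, is a first coordinate.) -/
def Special (a b : ℤ) (P : Finset (ℤ × ℤ)) (m : ℕ) (y : ℤ) : Prop :=
  ∃ k s q : ℤ, (k, s) ∈ P ∧ s ≠ 0 ∧ y = k + s * q ^ m ∧
    ∀ i : ℕ, 1 ≤ i → (∃ s' : ℤ, ((T a b)^[i] k, s') ∈ P) → ¬ (2 : ℤ) ^ i ∣ y - k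

lemma admissible {r m₀ m : ℕ} (h : (m₀ = 2 ∧ r = 3) ∨ (m₀ = 3 ∧ r = 2)) (hm : m₀ ≤ m) :
    (r = 2 ∨ r = 3) ∧ 5 ≤ m + r ∧ 2 ≤ m := by omega

/-- **Main theorem.** Let `a` be odd, `|a| ≥ 3` (for example `a = 3`, `a = 5`). Let `r = 3` for the exponents
`m ≥ m₀ = 2`, or `r = 2` for the exponents `m ≥ m₀ = 3`.

(1) Let `r c < 1`. For every odd `b` (for example `b = 1`) only finitely many cycles `Z` of `T a b` are such
that for some `m ≥ m₀` and some set `Q` of at most `p ^ c` integers (`p` is the length of the cycle) all odd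
elements are of the form `s q ^ m`, `s ∈ Q`. For `m = 2` this says that only finitely many cycles have odd
elements with at most `p ^ c` different squarefree parts.

(2) Let `c, d ≥ 0`, `r (c + d) < 1`. There is `C` such that for all odd `b`, all `m ≥ m₀`, every cycle with
`p ≥ 2` elements of `T a b`, `|b| ≤ p ^ d`, and every set `Q` of at most `p ^ c` integers, at most `C p / log p`
elements of the cycle are at distance at most `p ^ d` from an odd number `s q ^ m`, `s ∈ Q`.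

(3) Let `c, d ≥ 0`, `r c < 1`, `c + (r - 1) d < 1`. There is `C` such that for all odd `b`, all `m ≥ m₀`, every
cycle of `T a b` with `p ≥ 2` elements, `|b| ≤ p ^ d`, and every set `P` of at most `p ^ c` pairs of integers with
first coordinates of size at most `p ^ d`, at most `C p / log p` elements of the cycle are special for `P`
and `m`. -/
theorem result (a : ℤ) (ha : a % 2 = 1) (ha3 : 3 ≤ |a|) (r m₀ : ℕ)
    (hr : (m₀ = 2 ∧ r = 3) ∨ (m₀ = 3 ∧ r = 2)) :
    (∀ c : ℝ, r * c < 1 → ∀ b : ℤ, b % 2 = 1 →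
      {Z : Finset ℤ | IsCycle a b Z ∧ ∃ m : ℕ, m₀ ≤ m ∧ ∃ Q : Finset ℤ,
        (Q.card : ℝ) ≤ (Z.card : ℝ) ^ c ∧
        ∀ y ∈ Z, y % 2 = 1 → ∃ s ∈ Q, ∃ q : ℤ, y = s * q ^ m}.Finite) ∧
    (∀ c d : ℝ, 0 ≤ c → 0 ≤ d → r * (c + d) < 1 →
      ∃ C : ℝ, ∀ b : ℤ, b % 2 = 1 → ∀ m : ℕ, m₀ ≤ m → ∀ Z : Finset ℤ, IsCycle a b Z → 2 ≤ Z.card →
        |(b : ℝ)| ≤ (Z.card : ℝ) ^ d →
        ∀ Q : Finset ℤ, (Q.card : ℝ) ≤ (Z.card : ℝ) ^ c →
        ∀ F : Finset ℤ, F ⊆ Z → (∀ y ∈ F, ∃ s ∈ Q, ∃ q : ℤ, (s * q ^ m) % 2 = 1 ∧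
            |(y : ℝ) - s * q ^ m| ≤ (Z.card : ℝ) ^ d) →
          (F.card : ℝ) ≤ C * (Z.card / Real.log Z.card)) ∧
    (∀ c d : ℝ, 0 ≤ c → 0 ≤ d → r * c < 1 → c + (r - 1 : ℕ) * d < 1 →
      ∃ C : ℝ, ∀ b : ℤ, b % 2 = 1 → ∀ m : ℕ, m₀ ≤ m → ∀ Z : Finset ℤ, IsCycle a b Z → 2 ≤ Z.card →
        |(b : ℝ)| ≤ (Z.card : ℝ) ^ d →
        ∀ P : Finset (ℤ × ℤ), (P.card : ℝ) ≤ (Z.card : ℝ) ^ c →
        (∀ q ∈ P, |(q.1 : ℝ)| ≤ (Z.card : ℝ) ^ d) →
        ∀ F : Finset ℤ, F ⊆ Z → (∀ y ∈ F, Special a b P m y) →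
          (F.card : ℝ) ≤ C * (Z.card / Real.log Z.card)) := by
  have hr23 : r = 2 ∨ r = 3 := by omega
  have hg : |a| = ((a.natAbs : ℕ) : ℤ) := by rw [Int.natCast_natAbs]
  have hg3 : 3 ≤ a.natAbs := by omega
  refine ⟨?_, ?_, ?_⟩
  · intro c hc b hb
    refine (Pool.Agent.V5helper5.AB.finite_all ha hb hg hg3 r hr23 hc).subset ?_
    rintro Z ⟨hZ, m, hm, Q, hQ, h⟩
    exact ⟨hZ, m, ⟨(admissible hr hm).2.1, (admissible hr hm).2.2⟩, Q, hQ, h⟩
  · intro c d hc0 hd0 h1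
    obtain ⟨C, _, hC⟩ := Pool.Agent.V5helper5.AB.near_all ha hg hg3 r hr23 hc0 hd0 h1
    exact ⟨C, fun b hb m hm => hC b hb m (admissible hr hm).2.1 (admissible hr hm).2.2⟩
  · intro c d hc0 hd0 h1 h2
    obtain ⟨C, _, hC⟩ := Pool.Agent.V5helper5.AB.cyc_all ha hg hg3 r hr23 hc0 hd0 h1 h2
    exact ⟨C, fun b hb m hm => hC b hb m (admissible hr hm).2.1 (admissible hr hm).2.2⟩

end Pool.Agent.Results.MP_dee342_nt.SquarefreeParts
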